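import Pool.Agent.MTO.Stmts
import Pool.Agent.Helper90_MTF.Spn

set_option autoImplicit false

namespace Pool.Agent.MTO.H46

open Matrix Pool.Agent.MTF Pool.Agent.MTO

theorem mat_zero {d : Type} [Fintype d] [DecidableEq d] (M : Matrix d d ℂ)
    (h : ∀ x : d → ℂ, M *ᵥ x = 0) : M = 0 := by
  ext i j
  have h1 := congrFun (h (Pi.single j 1)) i
  rw [Matrix.mulVec_single_one] at h1
  exact h1

theorem nil {d : Type} [Fintype d] [DecidableEq d] (Ψ : Matrix d d ℂ)
    (h1 : ∀ a b x : d → ℂ, wd Ψ a b *ᵥ x = (b ⬝ᵥ (Ψ *ᵥ x)) • a - (a ⬝ᵥ (Ψ *ᵥ x)) • b)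
    (h9 : ∀ x y : d → ℂ, x ⬝ᵥ (Ψ *ᵥ y) = y ⬝ᵥ (Ψ *ᵥ x)) (a b : d → ℂ)
    (haa : a ⬝ᵥ (Ψ *ᵥ a) = 0) (hab : a ⬝ᵥ (Ψ *ᵥ b) = 0) : IsNilpotent (wd Ψ a b) := by
  refine ⟨3, ?_⟩
  have hba : b ⬝ᵥ (Ψ *ᵥ a) = 0 := by rw [h9]; exact hab
  have ha : wd Ψ a b *ᵥ a = 0 := by rw [h1, haa, hba]; simp
  have hb : wd Ψ a b *ᵥ b = (b ⬝ᵥ (Ψ *ᵥ b)) • a := by rw [h1, hab]; simp
  apply mat_zero
  intro x
  rw [pow_succ, pow_succ, pow_one, ← mulVec_mulVec, ← mulVec_mulVec, h1 a b x, mulVec_sub,
    mulVec_smul, mulVec_smul, ha, hb, mulVec_sub, mulVec_smul, mulVec_smul, mulVec_smul, ha,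
    mulVec_zero]
  simp

theorem sne (hW : WedStmt) : SneStmt := by
  intro d _ _ Ψ hs hu hd W m h X hX
  obtain ⟨h1, h2, -, h4, h5, h6, h7, -, h9⟩ := hW d Ψ hs
  have h4 := h4 hu
  set S : Set (Matrix d d ℂ) := {Y : Matrix d d ℂ | Y ∈ sk Ψ ∧ IsNilpotent Y} with hS
  refine MTF.H90.dep_span S W m h X ?_
  intro j
  refine (show sk Ψ ≤ Submodule.span ℂ S from ?_) (hX j)
  refine le_trans h4 ?_
  rw [Submodule.span_le]
  rintro _ ⟨a, b, rfl⟩
  have : Invertible (2 : ℂ) := invertibleOfNonzero two_ne_zero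
  have hsym : LinearMap.IsSymm (Matrix.toBilin' Ψ) := by
    constructor
    intro x y
    simp only [Matrix.toBilin'_apply', RingHom.id_apply]
    exact h9 x y
  obtain ⟨f, hf⟩ := LinearMap.BilinForm.exists_orthogonal_basis hsym
  have hnd : (Matrix.toBilin' Ψ).Nondegenerate :=
    LinearMap.BilinForm.nondegenerate_toBilin'_of_det_ne_zero' Ψ hu.ne_zero
  have hq : ∀ i, f i ⬝ᵥ (Ψ *ᵥ f i) ≠ 0 := by
    intro i
    have := LinearMap.BilinForm.iIsOrtho.not_isOrtho_basis_self_of_nondegenerate hf hnd i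
    rwa [Matrix.toBilin'_apply'] at this
  have ho : ∀ i k, i ≠ k → f i ⬝ᵥ (Ψ *ᵥ f k) = 0 := by
    intro i k hik
    have := hf hik
    simp only [Function.onFun, Matrix.toBilin'_apply'] at this
    exact this
  have hcard : Fintype.card (Fin (Module.finrank ℂ (d → ℂ))) = Fintype.card d := by
    rw [Fintype.card_fin, Module.finrank_fintype_fun_eq_card]
  -- two basis vectors
  have key : ∀ i k, wd Ψ (f i) (f k) ∈ Submodule.span ℂ S := by
    intro i k
    by_cases hik : i = k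
    · subst hik
      have h10 : wd Ψ (f i) (f i) = 0 := by
        have h11 := h5 (f i) (f i)
        have h15 : (2 : ℂ) • wd Ψ (f i) (f i) = 0 := by
          rw [two_smul]
          nth_rewrite 2 [h11]
          exact add_neg_cancel _
        exact (smul_eq_zero.mp h15).resolve_left two_ne_zero
      rw [h10]; exact Submodule.zero_mem _
    · obtain ⟨t, ht1, ht2⟩ : ∃ t, t ≠ i ∧ t ≠ k := by
        by_contra hcon
        push Not at hcon
        have h12 : (Finset.univ : Finset (Fin (Module.finrank ℂ (d → ℂ)))) ⊆ {i, k} := by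
          intro t _
          by_cases hti : t = i
          · simp [hti]
          · simp [hcon t hti]
        have h13 := Finset.card_le_card h12
        rw [Finset.card_univ, hcard] at h13
        have h14 : ({i, k} : Finset (Fin (Module.finrank ℂ (d → ℂ)))).card ≤ 2 :=
          Finset.card_le_two
        omega
      obtain ⟨s, hs2⟩ := IsAlgClosed.exists_pow_nat_eq
        (-(f i ⬝ᵥ (Ψ *ᵥ f i)) / (f t ⬝ᵥ (Ψ *ᵥ f t))) (n := 2) (by norm_num)
      have hs3 : s * s * (f t ⬝ᵥ (Ψ *ᵥ f t)) = -(f i ⬝ᵥ (Ψ *ᵥ f i)) := by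
        rw [← pow_two, hs2, div_mul_cancel₀ _ (hq t)]
      have gen : ∀ e : ℂ, e * e = 1 → wd Ψ (f i + (e * s) • f t) (f k) ∈ Submodule.span ℂ S := by
        intro e he
        apply Submodule.subset_span
        refine ⟨h2 _ _, nil Ψ h1 h9 _ _ ?_ ?_⟩
        · rw [mulVec_add, mulVec_smul, add_dotProduct, dotProduct_add, dotProduct_add,
            smul_dotProduct, smul_dotProduct, dotProduct_smul, dotProduct_smul,
            ho i t (Ne.symm ht1), ho t i ht1]
          simp only [smul_eq_mul]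
          linear_combination (e * e) * hs3 - (f i ⬝ᵥ (Ψ *ᵥ f i)) * he
        · rw [add_dotProduct, smul_dotProduct, ho i k hik, ho t k ht2]
          simp
      have e1 := gen 1 (by ring)
      have e2 := gen (-1) (by ring)
      have e3 := Submodule.smul_mem _ ((2 : ℂ)⁻¹) (Submodule.add_mem _ e1 e2)
      have e4 : (2 : ℂ)⁻¹ • (wd Ψ (f i + ((1 : ℂ) * s) • f t) (f k) +
          wd Ψ (f i + ((-1 : ℂ) * s) • f t) (f k)) = wd Ψ (f i) (f k) := by
        rw [h6, h6, h7, h7]
        module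
      rwa [e4] at e3
  -- bilinearity
  have key2 : ∀ a, ∀ k, wd Ψ a (f k) ∈ Submodule.span ℂ S := by
    intro a k
    have ha : a ∈ Submodule.span ℂ (Set.range f) := by
      rw [f.span_eq]; exact Submodule.mem_top
    induction ha using Submodule.span_induction with
    | mem x hx => obtain ⟨i, rfl⟩ := hx; exact key i k
    | zero =>
      have := h7 0 0 (f k)
      rw [zero_smul, zero_smul] at this
      rw [this]; exact Submodule.zero_mem _
    | add x y _ _ hx hy => rw [h6]; exact Submodule.add_mem _ hx hy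
    | smul t x _ hx => rw [h7]; exact Submodule.smul_mem _ _ hx
  have hb : b ∈ Submodule.span ℂ (Set.range f) := by
    rw [f.span_eq]; exact Submodule.mem_top
  change wd Ψ a b ∈ Submodule.span ℂ S
  rw [h5 b a]
  apply Submodule.neg_mem
  induction hb using Submodule.span_induction with
  | mem x hx =>
    obtain ⟨i, rfl⟩ := hx
    rw [h5 a (f i)]
    exact Submodule.neg_mem _ (key2 a i)
  | zero =>
    have := h7 0 0 a
    rw [zero_smul, zero_smul] at this
    rw [this]; exact Submodule.zero_mem _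
  | add x y _ _ hx hy => rw [h6]; exact Submodule.add_mem _ hx hy
  | smul t x _ hx => rw [h7]; exact Submodule.smul_mem _ _ hx

end Pool.Agent.MTO.H46
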